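import Mathlib
import Pool.Agent.Lib.MP_916210_gt.NotS

set_option autoImplicit false

namespace Pool.Agent.Results.MP_916210_gt.BetaOmega

open Pool.Agent.Lib.MP_916210_gt

/-- The infinite compact Hausdorff space `βω` (the space of ultrafilters on the natural numbers)
is `l`-stable but not `S`-stable. -/
theorem result :
    (Infinite (Ultrafilter ℕ) ∧ CompactSpace (Ultrafilter ℕ) ∧ T2Space (Ultrafilter ℕ)) ∧
      LStable (Ultrafilter ℕ) ∧ ¬ SStable (Ultrafilter ℕ) :=
  ⟨⟨Infinite.of_injective (pure : ℕ → Ultrafilter ℕ) Ultrafilter.pure_injective,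
    inferInstance, inferInstance⟩, lStable_ultrafilter, not_sStable_ultrafilter⟩

end Pool.Agent.Results.MP_916210_gt.BetaOmega
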